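import Pool.Agent.V5helper27.BM.Stm

set_option autoImplicit false

/-!
# KM2: the map `k` near the point `i` of the circle, in logarithmic coordinates
-/

open Complex Filter Topology Set Metric MeasureTheory

namespace Pool.Agent.V5helper83.BM

open Pool.Agent.V5helper27.BM hiding sq



theorem tau_re : tau.re = Real.sqrt 2 / 2 := by
  have h : tau = cexp (((-(Real.pi / 4) : ℝ) : ℂ) * I) := by
    unfold tau; congr 1; push_cast; ring
  rw [h, Complex.exp_ofReal_mul_I_re, Real.cos_neg, Real.cos_pi_div_four]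

theorem tau_im : tau.im = -(Real.sqrt 2 / 2) := by
  have h : tau = cexp (((-(Real.pi / 4) : ℝ) : ℂ) * I) := by
    unfold tau; congr 1; push_cast; ring
  rw [h, Complex.exp_ofReal_mul_I_im, Real.sin_neg, Real.sin_pi_div_four]

theorem tau_eq : tau = (Real.sqrt 2 : ℂ) / 2 * (1 - I) := by
  apply Complex.ext
  · rw [tau_re]; simp
  · rw [tau_im]; simp

theorem r2_sq : (Real.sqrt 2 : ℂ) ^ 2 = 2 := by
  rw [← Complex.ofReal_pow, Real.sq_sqrt (by norm_num)]; norm_num

theorem r2_ne : (Real.sqrt 2 : ℂ) ≠ 0 := by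
  intro h
  have := r2_sq
  rw [h] at this; norm_num at this

theorem tau_sq : tau ^ 2 = -I := by
  rw [tau_eq, mul_pow, div_pow, r2_sq]
  have : (1 - I) ^ 2 = -2 * I := by
    ring_nf; rw [I_sq]; ring
  rw [this]; ring

theorem tau_sub_ne : tau - 1 ≠ 0 := by
  intro h
  have : tau.im = 0 := by
    have : tau = 1 := sub_eq_zero.mp h
    rw [this]; simp
  rw [tau_im] at this
  have h2 : (0:ℝ) < Real.sqrt 2 := Real.sqrt_pos.mpr (by norm_num)
  linarith

theorem tau_ne : tau ≠ 0 := Complex.exp_ne_zero _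

theorem tauI_ne : tau + I ≠ 0 := by
  intro h
  have : tau.re = 0 := by
    have : tau = -I := eq_neg_of_add_eq_zero_left h
    rw [this]; simp
  rw [tau_re] at this
  have h2 : (0:ℝ) < Real.sqrt 2 := Real.sqrt_pos.mpr (by norm_num)
  linarith

/-- the base point -/
noncomputable def ze : ℂ := (Real.pi / 2 : ℝ) * I

theorem exp_ze : cexp ze = I := by
  unfold ze
  push_cast
  exact Complex.exp_pi_div_two_mul_I

theorem I_sub_ne : (I - 1 : ℂ) ≠ 0 := by
  intro h
  have := congrArg Complex.im h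
  simp at this

theorem rI : (I + 1) / (I - 1) = (-I : ℂ) := by
  rw [div_eq_iff I_sub_ne]
  ring_nf; rw [I_sq]; ring

theorem log_negI : Complex.log (-I) = -(Real.pi / 2) * I := Complex.log_neg_I

theorem sqI : Pool.Agent.V5helper27.BM.sq I = tau := by
  unfold Pool.Agent.V5helper27.BM.sq tau
  rw [rI, log_negI]
  congr 1; ring

theorem kkI : kk I = I := by
  unfold kk
  rw [sqI, div_eq_iff tau_sub_ne]
  have := tau_sq
  linear_combination this

theorem negI_slit : (-I : ℂ) ∈ slitPlane := by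
  rw [Complex.mem_slitPlane_iff]; right; simp

theorem an_exp (z : ℂ) : AnalyticAt ℂ (fun ζ => cexp ζ) z := analyticAt_id.cexp

theorem an_r : AnalyticAt ℂ (fun ζ => (cexp ζ + 1) / (cexp ζ - 1)) ze := by
  refine AnalyticAt.div ((an_exp _).add analyticAt_const) ((an_exp _).sub analyticAt_const) ?_
  rw [exp_ze]; exact I_sub_ne

theorem an_logr : AnalyticAt ℂ (fun ζ => Complex.log ((cexp ζ + 1) / (cexp ζ - 1))) ze := by
  refine AnalyticAt.clog an_r ?_
  rw [exp_ze, rI]; exact negI_slit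

theorem an_sq : AnalyticAt ℂ (fun ζ => Pool.Agent.V5helper27.BM.sq (cexp ζ)) ze := by
  unfold Pool.Agent.V5helper27.BM.sq
  refine AnalyticAt.cexp' ?_
  exact an_logr.div analyticAt_const (by norm_num)

theorem an_kk : AnalyticAt ℂ (fun ζ => kk (cexp ζ)) ze := by
  unfold kk
  refine AnalyticAt.div (analyticAt_const.mul (an_sq.add analyticAt_const)) (an_sq.sub analyticAt_const) ?_
  rw [exp_ze, sqI]; exact tau_sub_ne

theorem an_sg : AnalyticAt ℂ (fun ζ => sg (cexp ζ)) ze := by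
  unfold sg
  refine AnalyticAt.sub (analyticAt_const.mul (AnalyticAt.clog ((an_sq.add analyticAt_const).div analyticAt_const
    (by norm_num)) ?_)) (an_logr.div analyticAt_const (by norm_num))
  rw [exp_ze, sqI, Complex.mem_slitPlane_iff]
  left
  have h2 : (0:ℝ) < Real.sqrt 2 := Real.sqrt_pos.mpr (by norm_num)
  have : ((tau + 1) / 2).re = (tau.re + 1) / 2 := by
    rw [show (2:ℂ) = ((2:ℝ):ℂ) by norm_num, Complex.div_ofReal_re]; simp
  rw [this, tau_re]
  positivity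

theorem nI : tau * I / (Real.sqrt 2 : ℂ) * ((tau + 1) / (tau + I)) = ((1 + Real.sqrt 2 / 2 : ℝ) : ℂ) := by
  have h1 := tauI_ne
  have h2 := r2_ne
  have h3 := r2_sq
  rw [div_mul_div_comm, div_eq_iff (mul_ne_zero h2 h1)]
  push_cast
  rw [tau_eq]
  set s : ℂ := (Real.sqrt 2 : ℂ)
  ring_nf
  simp only [I_sq, I_pow_three, I_pow_four]
  ring_nf
  have h4 : s ^ 3 = 2 * s := by rw [pow_succ, h3]
  rw [h4, h3]
  ring

theorem an_nn : AnalyticAt ℂ (fun ζ => nn (cexp ζ)) ze := by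
  unfold nn
  refine AnalyticAt.clog (analyticAt_const.mul ((an_sq.add analyticAt_const).div (an_sq.add analyticAt_const) ?_)) ?_
  · rw [exp_ze, sqI]; exact tauI_ne
  · rw [exp_ze, sqI, nI, Complex.mem_slitPlane_iff]
    left
    rw [Complex.ofReal_re]
    positivity

/-- `k` in logarithmic coordinates -/
noncomputable def ka (ζ : ℂ) : ℂ := Complex.log (-I * kk (cexp ζ)) + ze

theorem W_ze : -I * kk (cexp ze) = 1 := by
  rw [exp_ze, kkI]; simp

theorem an_ka : AnalyticAt ℂ ka ze := by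
  unfold ka
  refine AnalyticAt.add (AnalyticAt.clog (analyticAt_const.mul an_kk) ?_) analyticAt_const
  rw [W_ze]; exact Complex.one_mem_slitPlane

theorem ka_ze : ka ze = ze := by
  unfold ka
  rw [W_ze]; simp

/-- `L₀ = (√2 + 1) / 2` -/
noncomputable def L0 : ℝ := (Real.sqrt 2 + 1) / 2

theorem L0_gt : (1.2 : ℝ) < L0 := by
  unfold L0
  have : (1.4 : ℝ) < Real.sqrt 2 := by
    rw [show (1.4:ℝ) = Real.sqrt (1.4 ^ 2) by rw [Real.sqrt_sq (by norm_num)]]
    exact Real.sqrt_lt_sqrt (by norm_num) (by norm_num)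
  linarith

theorem L0_lt : L0 < (1.3 : ℝ) := by
  unfold L0
  have : Real.sqrt 2 < (1.5 : ℝ) := by
    rw [show (1.5:ℝ) = Real.sqrt (1.5 ^ 2) by rw [Real.sqrt_sq (by norm_num)]]
    exact Real.sqrt_lt_sqrt (by norm_num) (by norm_num)
  linarith

theorem d_r : HasDerivAt (fun ζ => (cexp ζ + 1) / (cexp ζ - 1)) 1 ze := by
  have h1 : HasDerivAt (fun ζ : ℂ => cexp ζ) I ze := by
    have := Complex.hasDerivAt_exp ze
    rwa [exp_ze] at this
  have h2 := (h1.add_const 1).div (h1.sub_const 1) (by rw [exp_ze]; exact I_sub_ne)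
  refine h2.congr_deriv ?_
  rw [exp_ze, div_eq_iff (pow_ne_zero 2 I_sub_ne)]
  ring_nf; rw [I_sq]; ring

theorem d_sq : HasDerivAt (fun ζ => Pool.Agent.V5helper27.BM.sq (cexp ζ)) (tau * I / 2) ze := by
  have h1 := d_r.clog (by rw [exp_ze, rI]; exact negI_slit)
  have h2 := (h1.div_const 2).cexp
  refine (h2.congr_deriv ?_)
  have h3 : cexp (Complex.log ((cexp ze + 1) / (cexp ze - 1)) / 2) = tau := by
    have := sqI
    unfold Pool.Agent.V5helper27.BM.sq at this
    rw [exp_ze]; exact this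
  rw [h3, exp_ze, rI]
  have : (1 : ℂ) / (-I) = I := by
    rw [div_eq_iff (neg_ne_zero.mpr I_ne_zero)]
    simp
  rw [this]; ring

theorem d_kk : HasDerivAt (fun ζ => kk (cexp ζ)) ((L0 : ℂ) * I) ze := by
  have h1 := ((d_sq.add_const I).const_mul tau).div (d_sq.sub_const 1) (by rw [exp_ze, sqI]; exact tau_sub_ne)
  refine h1.congr_deriv ?_
  rw [exp_ze, sqI, div_eq_iff (pow_ne_zero 2 tau_sub_ne)]
  unfold L0
  push_cast
  rw [tau_eq]
  have h3 := r2_sq
  set s : ℂ := (Real.sqrt 2 : ℂ)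
  have h4 : s ^ 3 = 2 * s := by rw [pow_succ, h3]
  ring_nf
  simp only [I_sq, I_pow_three, I_pow_four]
  ring_nf
  rw [h4, h3]
  ring

theorem d_ka : HasDerivAt ka (L0 : ℂ) ze := by
  unfold ka
  have h1 := (d_kk.const_mul (-I)).clog (by rw [W_ze]; exact Complex.one_mem_slitPlane)
  refine (h1.add_const ze).congr_deriv ?_
  rw [W_ze]
  ring_nf
  rw [I_sq]; ring

/-- `|k| = 1` on the upper half of the circle -/
theorem kk_circ (θ : ℝ) (h0 : 0 < θ) (h1 : θ < Real.pi) : ‖kk (cexp (θ * I))‖ = 1 := by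
  have hs : 0 < Real.sin θ := Real.sin_pos_of_pos_of_lt_pi h0 h1
  set u : ℂ := cexp (θ * I) with hu
  have hre : u.re = Real.cos θ := Complex.exp_ofReal_mul_I_re θ
  have him : u.im = Real.sin θ := Complex.exp_ofReal_mul_I_im θ
  have hne : u - 1 ≠ 0 := by
    intro h
    have := congrArg Complex.im h
    simp [him] at this
    linarith
  have hcs := Real.sin_sq_add_cos_sq θ
  have hcos : 0 < 1 - Real.cos θ := by nlinarith
  set c : ℝ := Real.sin θ / (1 - Real.cos θ) with hcdef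
  have hc : 0 < c := by rw [hcdef]; positivity
  have hc1 : c * (1 - Real.cos θ) = Real.sin θ := by rw [hcdef]; field_simp
  have hc2 : c * Real.sin θ = 1 + Real.cos θ := by
    rw [hcdef, div_mul_eq_mul_div, div_eq_iff hcos.ne']
    nlinarith
  have hr : (u + 1) / (u - 1) = (c : ℂ) * (-I) := by
    rw [div_eq_iff hne]
    apply Complex.ext
    · simp only [Complex.add_re, Complex.mul_re, Complex.mul_im, Complex.neg_re, Complex.neg_im, Complex.I_re,
        Complex.I_im, Complex.ofReal_re, Complex.ofReal_im, Complex.sub_re, Complex.sub_im, Complex.one_re,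
        Complex.one_im, hre, him]
      linarith
    · simp only [Complex.add_im, Complex.mul_re, Complex.mul_im, Complex.neg_re, Complex.neg_im, Complex.I_re,
        Complex.I_im, Complex.ofReal_re, Complex.ofReal_im, Complex.sub_re, Complex.sub_im, Complex.one_re,
        Complex.one_im, hre, him]
      linarith
  have hlog : Complex.log ((u + 1) / (u - 1)) = (Real.log c : ℂ) + (-(Real.pi / 2) * I) := by
    rw [hr, Complex.log_ofReal_mul hc (by simp), log_negI]
  have hsq : Pool.Agent.V5helper27.BM.sq u = ((Real.exp (Real.log c / 2) : ℝ) : ℂ) * tau := by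
    unfold Pool.Agent.V5helper27.BM.sq tau
    rw [hlog, Complex.ofReal_exp, ← Complex.exp_add]
    congr 1
    push_cast
    ring
  set p : ℝ := Real.exp (Real.log c / 2) with hp
  unfold kk
  rw [norm_div, norm_mul]
  have ht : ‖tau‖ = 1 := by
    have h : tau = cexp (((-(Real.pi / 4) : ℝ) : ℂ) * I) := by
      unfold tau; congr 1; push_cast; ring
    rw [h, Complex.norm_exp_ofReal_mul_I]
  have hq1 : (Pool.Agent.V5helper27.BM.sq u).re = p * (Real.sqrt 2 / 2) := by rw [hsq, Complex.re_ofReal_mul, tau_re]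
  have hq2 : (Pool.Agent.V5helper27.BM.sq u).im = -(p * (Real.sqrt 2 / 2)) := by rw [hsq, Complex.im_ofReal_mul, tau_im]; ring
  have hne2 : Pool.Agent.V5helper27.BM.sq u - 1 ≠ 0 := by
    intro h
    have h3 : Pool.Agent.V5helper27.BM.sq u = 1 := sub_eq_zero.mp h
    rw [h3] at hq2
    have hpp : 0 < p := Real.exp_pos _
    have h2 : (0:ℝ) < Real.sqrt 2 := Real.sqrt_pos.mpr (by norm_num)
    rw [Complex.one_im] at hq2
    have h5 : 0 < p * (Real.sqrt 2 / 2) := by positivity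
    linarith
  have heq : ‖Pool.Agent.V5helper27.BM.sq u + I‖ = ‖Pool.Agent.V5helper27.BM.sq u - 1‖ := by
    have e1 : ‖Pool.Agent.V5helper27.BM.sq u + I‖ ^ 2 = ‖Pool.Agent.V5helper27.BM.sq u - 1‖ ^ 2 := by
      rw [← Complex.normSq_eq_norm_sq, ← Complex.normSq_eq_norm_sq, Complex.normSq_apply, Complex.normSq_apply]
      simp only [add_re, add_im, sub_re, sub_im, I_re, I_im, one_re, one_im, hq1, hq2]
      ring
    exact (sq_eq_sq₀ (norm_nonneg _) (norm_nonneg _)).mp e1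
  rw [ht, one_mul, heq, div_self (norm_ne_zero_iff.mpr hne2)]

theorem exp_ka {ζ : ℂ} (h : -I * kk (cexp ζ) ≠ 0) : cexp (ka ζ) = kk (cexp ζ) := by
  unfold ka
  rw [Complex.exp_add, Complex.exp_log h, exp_ze]
  ring_nf
  rw [I_sq]; ring

theorem km2 : S_km2 := by
  -- a ball where everything holds
  have e1 : ∀ᶠ ζ in 𝓝 ze, AnalyticAt ℂ ka ζ := an_ka.eventually_analyticAt
  have e2 : ∀ᶠ ζ in 𝓝 ze, ‖deriv ka ζ - L0‖ < 1 / 10 := by
    have hc : ContinuousAt (fun ζ => ‖deriv ka ζ - L0‖) ze :=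
      (an_ka.deriv.continuousAt.sub continuousAt_const).norm
    refine hc.eventually_lt continuousAt_const ?_
    rw [d_ka.deriv]; simp
  have e3 : ∀ᶠ ζ in 𝓝 ze, -I * kk (cexp ζ) ≠ 0 := by
    have hc : ContinuousAt (fun ζ => -I * kk (cexp ζ)) ze := (analyticAt_const.mul an_kk).continuousAt
    refine hc.eventually_ne ?_
    rw [W_ze]; norm_num
  have e4 : ∀ᶠ ζ in 𝓝 ze, ‖sg (cexp ζ)‖ < ‖sg (cexp ze)‖ + 1 := by
    have hc : ContinuousAt (fun ζ => ‖sg (cexp ζ)‖) ze := an_sg.continuousAt.norm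
    exact hc.eventually_lt continuousAt_const (by simp)
  have e5 : ∀ᶠ ζ in 𝓝 ze, ‖nn (cexp ζ)‖ < ‖nn (cexp ze)‖ + 1 := by
    have hc : ContinuousAt (fun ζ => ‖nn (cexp ζ)‖) ze := an_nn.continuousAt.norm
    exact hc.eventually_lt continuousAt_const (by simp)
  obtain ⟨ρ, hρ, hb⟩ := Metric.eventually_nhds_iff_ball.mp (((e1.and e2).and (e3.and e4)).and e5)
  -- the mean value inequality
  have mv : ∀ a ∈ ball ze ρ, ∀ b ∈ ball ze ρ, ‖ka b - ka a - L0 * (b - a)‖ ≤ 1 / 10 * ‖b - a‖ := by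
    intro a ha b hb'
    have h1 : ∀ ζ ∈ ball ze ρ, HasDerivWithinAt (fun ζ => ka ζ - L0 * ζ) (deriv ka ζ - L0) (ball ze ρ) ζ := by
      intro ζ hζ
      have h2 := (hb ζ hζ).1.1.1.differentiableAt.hasDerivAt
      have h3 : HasDerivAt (fun ζ => ka ζ - L0 * ζ) (deriv ka ζ - L0 * 1) ζ :=
        h2.sub ((hasDerivAt_id ζ).const_mul (L0 : ℂ))
      rw [mul_one] at h3
      exact h3.hasDerivWithinAt
    have h4 := (convex_ball ze ρ).norm_image_sub_le_of_norm_hasDerivWithin_le (C := 1 / 10) h1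
      (fun ζ hζ => (hb ζ hζ).1.1.2.le) ha hb'
    refine le_trans (le_of_eq ?_) h4
    congr 1; ring
  set δ : ℝ := min (ρ / 4) (1 / 2) with hδ
  have hδ0 : 0 < δ := lt_min (by linarith) (by norm_num)
  have hδ1 : δ ≤ 1 / 2 := min_le_right _ _
  have hδ2 : δ ≤ ρ / 4 := min_le_left _ _
  have hpi := Real.pi_gt_three
  have hin : ∀ x θ : ℝ, 0 ≤ x → x < δ → θ ∈ Icc (Real.pi / 2 - δ) (Real.pi / 2 + δ) → ((x : ℂ) + θ * I) ∈ ball ze ρ := by
    intro x θ hx hx' hθ
    rw [mem_ball, dist_eq_norm]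
    have h1 : (x : ℂ) + θ * I - ze = (x : ℂ) + ((θ - Real.pi / 2 : ℝ) : ℂ) * I := by
      unfold ze; push_cast; ring
    rw [h1]
    calc ‖(x : ℂ) + ((θ - Real.pi / 2 : ℝ) : ℂ) * I‖ ≤ ‖(x : ℂ)‖ + ‖((θ - Real.pi / 2 : ℝ) : ℂ) * I‖ := norm_add_le _ _
      _ = |x| + |θ - Real.pi / 2| := by
          rw [norm_mul, Complex.norm_I, mul_one, Complex.norm_real, Complex.norm_real]; rfl
      _ < ρ := by
          have h2 : |x| < δ := by rw [abs_of_nonneg hx]; exact hx'
          have h3 : |θ - Real.pi / 2| ≤ δ := abs_le.mpr ⟨by linarith [hθ.1], by linarith [hθ.2]⟩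
          linarith
  refine ⟨max (‖sg (cexp ze)‖ + 1) (‖nn (cexp ze)‖ + 1), δ, δ, le_trans (by positivity) (le_max_left _ _), hδ0,
    by linarith, hδ0, by linarith, ?_⟩
  intro x hx hx'
  have hL1 := L0_gt
  have hL2 := L0_lt
  refine ⟨fun θ => (ka (x + θ * I)).re, fun θ => (ka (x + θ * I)).im, fun θ => (deriv ka (x + θ * I)).re, ?_, ?_, ?_, ?_⟩
  · intro θ hθ
    have h1 : ContinuousAt (deriv ka) ((x : ℂ) + θ * I) := ((hb _ (hin x θ hx.le hx' hθ)).1.1.1.deriv).continuousAt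
    have h2 : ContinuousAt (fun θ : ℝ => (x : ℂ) + θ * I) θ := by fun_prop
    have h3 : ContinuousAt (fun θ : ℝ => deriv ka ((x : ℂ) + θ * I)) θ := ContinuousAt.comp (f := fun θ : ℝ => (x : ℂ) + θ * I) h1 h2
    exact (Complex.continuous_re.continuousAt.comp h3).continuousWithinAt
  · intro θ hθ
    have hm := hin x θ hx.le hx' hθ
    obtain ⟨⟨⟨ha, hd⟩, hw, hs⟩, hn⟩ := hb _ hm
    have hre : |(deriv ka ((x : ℂ) + θ * I)).re - L0| < 1 / 10 := by
      refine lt_of_le_of_lt ?_ hd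
      have := Complex.abs_re_le_norm (deriv ka ((x : ℂ) + θ * I) - L0)
      simpa using this
    rw [abs_lt] at hre
    refine ⟨?_, by linarith, by linarith, ?_⟩
    · have h1 : HasDerivAt ka (deriv ka ((x : ℂ) + θ * I)) ((x : ℂ) + θ * I) := ha.differentiableAt.hasDerivAt
      have h2 : HasDerivAt (fun θ : ℝ => (x : ℂ) + θ * I) I θ := by
        have := ((Complex.ofRealCLM.hasDerivAt (x := θ)).mul_const I).const_add (x : ℂ)
        simpa using this
      have h3 : HasDerivAt (fun θ : ℝ => ka ((x : ℂ) + θ * I)) (deriv ka ((x : ℂ) + θ * I) * I) θ :=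
        HasDerivAt.comp (h₂ := ka) (h := fun θ : ℝ => (x : ℂ) + θ * I) θ h1 h2
      have h4 := (Complex.imCLM.hasFDerivAt.comp_hasDerivAt θ h3)
      refine h4.congr_deriv ?_
      simp
    · -- X
      have hx0 : ((0:ℝ) : ℂ) + θ * I ∈ ball ze ρ := hin 0 θ le_rfl hδ0 hθ
      have hX0 : (ka (((0:ℝ) : ℂ) + θ * I)).re = 0 := by
        unfold ka
        rw [Complex.add_re, Complex.log_re]
        have h1 : ((0:ℝ) : ℂ) + θ * I = θ * I := by simp
        rw [h1, norm_mul, kk_circ θ (by linarith [hθ.1]) (by linarith [hθ.2])]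
        unfold ze
        simp
      have h5 := mv _ hx0 _ hm
      have h6 : (x : ℂ) + θ * I - (((0:ℝ) : ℂ) + θ * I) = (x : ℂ) := by simp
      rw [h6] at h5
      have h7 : ‖(x : ℂ)‖ = x := by rw [Complex.norm_real]; exact abs_of_pos hx
      rw [h7] at h5
      have h8 := le_trans (Complex.abs_re_le_norm _) h5
      have h9 : (ka (↑x + ↑θ * I) - ka (↑(0:ℝ) + ↑θ * I) - ↑L0 * ↑x).re = (ka (↑x + ↑θ * I)).re - L0 * x := by
        rw [Complex.sub_re, Complex.sub_re, hX0, ← Complex.ofReal_mul, Complex.ofReal_re]; ring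
      rw [h9, abs_le] at h8
      refine ⟨?_, ?_, ?_, ?_, ?_⟩
      · show x ≤ (ka (↑x + ↑θ * I)).re
        nlinarith [h8.1]
      · show (ka (↑x + ↑θ * I)).re ≤ 2 * x
        nlinarith [h8.2]
      · show kk (cexp (↑x + ↑θ * I)) = cexp (((ka (↑x + ↑θ * I)).re : ℂ) + ((ka (↑x + ↑θ * I)).im : ℂ) * I)
        rw [Complex.re_add_im, exp_ka hw]
      · exact hs.le.trans (le_max_left _ _)
      · exact hn.le.trans (le_max_right _ _)
  · -- left end
    have hθ : Real.pi / 2 - δ ∈ Icc (Real.pi / 2 - δ) (Real.pi / 2 + δ) := ⟨le_rfl, by linarith⟩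
    have hm := hin x _ hx.le hx' hθ
    have h5 := mv ze (mem_ball_self hρ) _ hm
    have h6 : (x : ℂ) + ((Real.pi / 2 - δ : ℝ) : ℂ) * I - ze = (x : ℂ) + ((-δ : ℝ) : ℂ) * I := by
      unfold ze; push_cast; ring
    rw [h6, ka_ze] at h5
    have h7 : ‖(x : ℂ) + ((-δ : ℝ) : ℂ) * I‖ ≤ x + δ := by
      refine (norm_add_le _ _).trans ?_
      rw [norm_mul, Complex.norm_I, mul_one, Complex.norm_real, Complex.norm_real]
      rw [Real.norm_eq_abs, Real.norm_eq_abs, abs_of_pos hx, abs_neg, abs_of_pos hδ0]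
    have h8 := (Complex.abs_im_le_norm _).trans h5
    have h9 : (ka (↑x + ((Real.pi / 2 - δ : ℝ) : ℂ) * I) - ze - ↑L0 * (↑x + ((-δ : ℝ) : ℂ) * I)).im
        = (ka (↑x + ((Real.pi / 2 - δ : ℝ) : ℂ) * I)).im - Real.pi / 2 + L0 * δ := by
      unfold ze
      simp
    rw [h9, abs_le] at h8
    show (ka (↑x + ((Real.pi / 2 - δ : ℝ) : ℂ) * I)).im ≤ Real.pi / 2 - δ
    nlinarith [h8.2, h7]
  · have hθ : Real.pi / 2 + δ ∈ Icc (Real.pi / 2 - δ) (Real.pi / 2 + δ) := ⟨by linarith, le_rfl⟩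
    have hm := hin x _ hx.le hx' hθ
    have h5 := mv ze (mem_ball_self hρ) _ hm
    have h6 : (x : ℂ) + ((Real.pi / 2 + δ : ℝ) : ℂ) * I - ze = (x : ℂ) + ((δ : ℝ) : ℂ) * I := by
      unfold ze; push_cast; ring
    rw [h6, ka_ze] at h5
    have h7 : ‖(x : ℂ) + ((δ : ℝ) : ℂ) * I‖ ≤ x + δ := by
      refine (norm_add_le _ _).trans ?_
      rw [norm_mul, Complex.norm_I, mul_one, Complex.norm_real, Complex.norm_real]
      rw [Real.norm_eq_abs, Real.norm_eq_abs, abs_of_pos hx, abs_of_pos hδ0]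
    have h8 := (Complex.abs_im_le_norm _).trans h5
    have h9 : (ka (↑x + ((Real.pi / 2 + δ : ℝ) : ℂ) * I) - ze - ↑L0 * (↑x + ((δ : ℝ) : ℂ) * I)).im
        = (ka (↑x + ((Real.pi / 2 + δ : ℝ) : ℂ) * I)).im - Real.pi / 2 - L0 * δ := by
      unfold ze
      simp
    rw [h9, abs_le] at h8
    show Real.pi / 2 + δ ≤ (ka (↑x + ((Real.pi / 2 + δ : ℝ) : ℂ) * I)).im
    nlinarith [h8.1, h7]

end Pool.Agent.V5helper83.BM
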